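import Pool.Agent.Helper20.NP.Stmts
import Pool.Agent.Helper24.DN.GRF
import Pool.Agent.Helper79.DN.ASC

set_option autoImplicit false

namespace Pool.Agent.Helper20.NP

open Pool.Agent.Helper21.DN

universe u

section core

variable {L : Type u} [Field L] (v : AddValuation L (WithTop ℤ))

theorem pow_natv (a : ℕ) : 0 ≤ v (a : L) := by
  induction a with
  | zero => simp
  | succ a ih =>
    rw [Nat.cast_succ]
    refine le_trans (le_min ih ?_) (v.map_add _ _)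
    rw [v.map_one]

theorem pow_D (D : Derivation ℤ L L) (e : ℤ) (hle : ∀ x : L, v x ≤ v (D x) + (e : WithTop ℤ))
    (x : L) (a : ℤ) (h : (a : WithTop ℤ) ≤ v x) : ((a - e : ℤ) : WithTop ℤ) ≤ v (D x) := by
  have h1 := h.trans (hle x)
  induction hb : v (D x) using WithTop.recTopCoe with
  | top => exact le_top
  | coe b =>
    rw [hb, ← WithTop.coe_add, WithTop.coe_le_coe] at h1
    rw [WithTop.coe_le_coe]
    linarith

theorem pow_sub (x y : L) (a : WithTop ℤ) (hx : a ≤ v x) (hy : a ≤ v y) : a ≤ v (x - y) :=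
  (le_min hx hy).trans (v.map_sub x y)

theorem pow_core (p : ℕ) [Fact p.Prime] [CharP L p] (D : Derivation ℤ L L) (e : ℤ)
    (hle : ∀ x : L, v x ≤ v (D x) + (e : WithTop ℤ)) (f fs F1 H : L)
    (hF : F1 = f - fs - (H ^ p - H)) (n N B Q : ℤ) (hQ : 0 < Q) (hN : N < Q) (hB : B < p * Q)
    (vf : v f = ((-n : ℤ) : WithTop ℤ)) (vfs : ((-N : ℤ) : WithTop ℤ) ≤ v fs)
    (vF1 : v F1 = ((-B : ℤ) : WithTop ℤ)) (vD : v (D F1) = ((-Q - e : ℤ) : WithTop ℤ)) :
    Q ≤ n := by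
  by_contra hcon
  rw [not_le] at hcon
  have hp1 : (1 : ℤ) ≤ p := by exact_mod_cast (Fact.out : p.Prime).one_lt.le
  have hpQ : Q ≤ p * Q := le_mul_of_one_le_left hQ.le hp1
  have e1 : ((-Q + 1 : ℤ) : WithTop ℤ) ≤ v f := by
    rw [vf, WithTop.coe_le_coe]; linarith
  have e2 : ((-Q + 1 : ℤ) : WithTop ℤ) ≤ v fs := by
    refine le_trans ?_ vfs
    rw [WithTop.coe_le_coe]; linarith
  have e3 : ((-Q + 1 : ℤ) : WithTop ℤ) ≤ v H := by
    by_contra hlt
    rw [not_le] at hlt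
    obtain ⟨c, hc⟩ := WithTop.ne_top_iff_exists.1 (ne_top_of_lt hlt)
    rw [← hc, WithTop.coe_lt_coe] at hlt
    have hc2 : c ≤ -Q := by linarith
    have g1 : v (H ^ p) = (((p : ℤ) * c : ℤ) : WithTop ℤ) := by
      rw [v.map_pow, ← hc, asc_nsmul_coe]
    have hpc : (p : ℤ) * c < c := by
      have h2 : (2 : ℤ) ≤ p := by exact_mod_cast (Fact.out : p.Prime).two_le
      nlinarith
    have g2 : v (H ^ p - H) = (((p : ℤ) * c : ℤ) : WithTop ℤ) := by
      rw [← g1]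
      apply v.map_sub_eq_of_lt_left
      rw [g1, ← hc, WithTop.coe_lt_coe]
      exact hpc
    have g3 : H ^ p - H = f - fs - F1 := by rw [hF]; ring
    have g4 : ((-(p * Q) + 1 : ℤ) : WithTop ℤ) ≤ v (H ^ p - H) := by
      rw [g3]
      refine pow_sub v _ _ _ (pow_sub v _ _ _ ?_ ?_) ?_
      · refine le_trans ?_ e1
        rw [WithTop.coe_le_coe]; linarith
      · refine le_trans ?_ e2
        rw [WithTop.coe_le_coe]; linarith
      · rw [vF1, WithTop.coe_le_coe]; linarith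
    rw [g2, WithTop.coe_le_coe] at g4
    nlinarith
  have hDp : D (H ^ p) = 0 := by
    rw [Derivation.leibniz_pow, nsmul_eq_mul, CharP.cast_eq_zero, zero_mul]
  have hDF : D F1 = D f - D fs + D H := by
    rw [hF, map_sub, map_sub, map_sub, hDp]
    ring
  have g5 : ((-Q + 1 - e : ℤ) : WithTop ℤ) ≤ v (D F1) := by
    rw [hDF]
    refine le_trans (le_min (pow_sub v _ _ _ ?_ ?_) ?_) (v.map_add _ _)
    · exact pow_D v D e hle f _ e1
    · exact pow_D v D e hle fs _ e2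
    · exact pow_D v D e hle H _ e3
  rw [vD, WithTop.coe_le_coe] at g5
  linarith

/-- valuation of the correction term -/
theorem pow_fs (p q : ℕ) (hp : 1 ≤ p) {r : ℕ} (w : Fin (r + 1) → L) (m : Fin (r + 1) → ℕ)
    (hw : ∀ j, v (w j) = ((-((q * m j : ℕ) : ℤ) : ℤ) : WithTop ℤ)) (hm : ∀ j, m j ≤ m 0)
    (a : Fin (r + 1) → Fin (r + 1) → ℕ) :
    ((-((p + 1) * (q * m 0) : ℤ) : ℤ) : WithTop ℤ) ≤
      v (∑ i, ∑ j, (a i j : L) * (w i ^ p - w i) * w j) := by
  refine v.map_le_sum fun i _ => v.map_le_sum fun j _ => ?_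
  have hqm : ∀ j, ((q * m j : ℕ) : ℤ) ≤ ((q * m 0 : ℕ) : ℤ) := fun j => by
    exact_mod_cast Nat.mul_le_mul_left q (hm j)
  have hq0 : (0 : ℤ) ≤ ((q * m 0 : ℕ) : ℤ) := Int.natCast_nonneg _
  have hp' : (1 : ℤ) ≤ p := by exact_mod_cast hp
  have h1 : ((-((q * m 0 : ℕ) : ℤ) : ℤ) : WithTop ℤ) ≤ v (w j) := by
    rw [hw, WithTop.coe_le_coe]
    linarith [hqm j]
  have h2 : ((-(p * ((q * m 0 : ℕ) : ℤ)) : ℤ) : WithTop ℤ) ≤ v (w i ^ p - w i) := by
    refine pow_sub v _ _ _ ?_ ?_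
    · rw [v.map_pow, hw, asc_nsmul_coe, WithTop.coe_le_coe]
      have := hqm i
      nlinarith
    · rw [hw, WithTop.coe_le_coe]
      have := hqm i
      nlinarith
  rw [v.map_mul, v.map_mul]
  have h3 : ((-((p + 1) * (q * m 0) : ℤ) : ℤ) : WithTop ℤ) =
      0 + ((-(p * ((q * m 0 : ℕ) : ℤ)) : ℤ) : WithTop ℤ) +
        ((-((q * m 0 : ℕ) : ℤ) : ℤ) : WithTop ℤ) := by
    rw [zero_add, ← WithTop.coe_add, WithTop.coe_inj]
    push_cast
    ring
  rw [h3]
  exact add_le_add (add_le_add (pow_natv v _) h2) h1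

end core

section group

variable {G : Type u} [Group G]

/-- the kernel of the first coordinate -/
def pow_h0 {p r : ℕ} (φ : G ≃* Multiplicative (Fin (r + 1) → ZMod p)) : Subgroup G where
  carrier := {σ | (φ σ).toAdd 0 = 0}
  one_mem' := by simp
  mul_mem' := by
    intro a b ha hb
    have ha' : (φ a).toAdd 0 = 0 := ha
    have hb' : (φ b).toAdd 0 = 0 := hb
    show (φ (a * b)).toAdd 0 = 0
    rw [map_mul, toAdd_mul, Pi.add_apply, ha', hb', add_zero]
  inv_mem' := by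
    intro a ha
    have ha' : (φ a).toAdd 0 = 0 := ha
    show (φ a⁻¹).toAdd 0 = 0
    rw [map_inv, toAdd_inv, Pi.neg_apply, ha', neg_zero]

theorem pow_mem_h0 {p r : ℕ} (φ : G ≃* Multiplicative (Fin (r + 1) → ZMod p)) (σ : G) :
    σ ∈ pow_h0 φ ↔ (φ σ).toAdd 0 = 0 := Iff.rfl

theorem pow_comm {p r : ℕ} (φ : G ≃* Multiplicative (Fin (r + 1) → ZMod p)) (a b : G) :
    a * b = b * a := by
  apply φ.injective
  rw [map_mul, map_mul, mul_comm]

theorem pow_exp {p r : ℕ} (φ : G ≃* Multiplicative (Fin (r + 1) → ZMod p)) (a : G) :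
    a ^ p = 1 := by
  apply φ.injective
  rw [map_pow, map_one]
  apply Multiplicative.toAdd.injective
  rw [toAdd_pow, toAdd_one]
  funext i
  rw [Pi.smul_apply, nsmul_eq_mul, CharP.cast_eq_zero, zero_mul, Pi.zero_apply]

theorem pow_gen {p r : ℕ} [NeZero p] (φ : G ≃* Multiplicative (Fin (r + 1) → ZMod p))
    (σ : Fin (r + 1) → G) (hσ : ∀ i, φ (σ i) = Multiplicative.ofAdd (Pi.single i 1))
    (S : Subgroup G) (hS : ∀ i, i ≠ 0 → σ i ∈ S) (τ : G) (hτ : τ ∈ pow_h0 φ) : τ ∈ S := by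
  have h1 : φ τ ∈ S.map φ.toMonoidHom := by
    have h2 : φ τ = ∏ i, (φ (σ i)) ^ ((φ τ).toAdd i).val := by
      apply Multiplicative.toAdd.injective
      rw [toAdd_prod]
      funext j
      rw [Finset.sum_apply, Finset.sum_eq_single j]
      · rw [hσ, toAdd_pow, toAdd_ofAdd, Pi.smul_apply, Pi.single_eq_same, nsmul_eq_mul, mul_one,
          ZMod.natCast_zmod_val]
      · intro i _ hij
        rw [hσ, toAdd_pow, toAdd_ofAdd, Pi.smul_apply, Pi.single_eq_of_ne (Ne.symm hij), smul_zero]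
      · intro h
        exact absurd (Finset.mem_univ j) h
    rw [h2]
    refine Subgroup.prod_mem _ fun i _ => ?_
    by_cases hi : i = 0
    · subst hi
      rw [(pow_mem_h0 φ τ).1 hτ, ZMod.val_zero, pow_zero]
      exact Subgroup.one_mem _
    · exact Subgroup.pow_mem _ (Subgroup.mem_map_of_mem φ.toMonoidHom (hS i hi)) _
  obtain ⟨x, hx, hxe⟩ := h1
  have : x = τ := φ.injective hxe
  rw [← this]
  exact hx

theorem pow_card_h0 {p r : ℕ} [Fact p.Prime] (φ : G ≃* Multiplicative (Fin (r + 1) → ZMod p)) :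
    Nat.card G = p ^ (r + 1) ∧ Nat.card (pow_h0 φ) = p ^ r := by
  have h1 : Nat.card G = p ^ (r + 1) := by
    rw [Nat.card_congr φ.toEquiv, Nat.card_congr Multiplicative.toAdd, Nat.card_fun, Nat.card_zmod,
      Nat.card_fin]
  refine ⟨h1, ?_⟩
  let π : G →* Multiplicative (ZMod p) :=
    { toFun := fun σ => Multiplicative.ofAdd ((φ σ).toAdd 0)
      map_one' := by simp
      map_mul' := by
        intro a b
        rw [map_mul, toAdd_mul, Pi.add_apply, ofAdd_add] }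
  have hk : π.ker = pow_h0 φ := by
    ext σ
    rw [MonoidHom.mem_ker, pow_mem_h0]
    exact ofAdd_eq_one
  have hs : Function.Surjective π := by
    intro c
    refine ⟨φ.symm (Multiplicative.ofAdd (fun _ => c.toAdd)), ?_⟩
    show Multiplicative.ofAdd ((φ (φ.symm (Multiplicative.ofAdd (fun _ => c.toAdd)))).toAdd 0) = c
    rw [MulEquiv.apply_symm_apply, toAdd_ofAdd, ofAdd_toAdd]
  have h2 := Subgroup.card_eq_card_quotient_mul_card_subgroup π.ker
  have h3 : Nat.card (G ⧸ π.ker) = p := by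
    rw [Nat.card_congr (QuotientGroup.quotientKerEquivOfSurjective π hs).toEquiv,
      Nat.card_congr Multiplicative.toAdd, Nat.card_zmod]
  rw [h1, h3, hk, pow_succ'] at h2
  exact (Nat.eq_of_mul_eq_mul_left (Fact.out : p.Prime).pos h2).symm

end group

theorem pow_iter {K L : Type u} [Field K] [Field L] [Algebra K L] (τ : L ≃ₐ[K] L) (l : ℕ) (x : L) :
    (⇑τ)^[l] x = (τ ^ l) x := by
  induction l with
  | zero => rfl
  | succ l ih =>
    rw [Function.iterate_succ_apply', ih, pow_succ', AlgEquiv.mul_apply]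

/-- the function `s` of the automorphisms of the field `E0` -/
theorem pow_s0 (hS1 : ST_S1.{u}) (p : ℕ) [Fact p.Prime] (k K L : Type u) [Field k] [CharP k p]
    [Field K] [Field L] [Algebra K L] [FiniteDimensional K L] [IsGalois K L] (κ : k →+* K)
    (v : AddValuation L (WithTop ℤ)) (hram : Ram κ v) (hfin : Module.finrank K L = p)
    (τ : L ≃ₐ[K] L) (w : L) (m : ℕ) (hm : ¬ p ∣ m) (hvw : v w = ((-(m : ℤ) : ℤ) : WithTop ℤ))
    (c : ℕ) (hc : ¬ p ∣ c) (hτ : τ w = w + (c : L)) : s v τ = m := by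
  have hLp : CharP L p := charP_of_injective_ringHom ((algebraMap K L).comp κ).injective p
  have hcard : Nat.card (L ≃ₐ[K] L) = p := by rw [IsGalois.card_aut_eq_finrank, hfin]
  have hc0 : (c : L) ≠ 0 := fun h => hc ((CharP.cast_eq_zero_iff L p c).1 h)
  have hck : (c : k) ≠ 0 := fun h => hc ((CharP.cast_eq_zero_iff k p c).1 h)
  have hvc : v (c : L) = 0 := by
    have := hram.tv.alg (c : k) hck
    rwa [map_natCast] at this
  obtain ⟨-, -, h3⟩ := hS1 p k L ((algebraMap K L).comp κ) v hram.tv (τ : L →+* L)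
    (fun c => τ.commutes _) (fun x => hram.inv τ x) ⟨1, fun x => by
      have h4 : τ ^ p = 1 := by rw [← hcard]; exact pow_card_eq_one'
      have h5 := pow_iter τ p x
      rw [h4] at h5
      rw [pow_one]
      exact h5⟩ ⟨w, fun h => hc0 (by
        have h6 : τ w = w := h
        rw [hτ] at h6
        exact (left_eq_add.1 h6.symm))⟩
  have h7 := h3 w (-(m : ℤ)) hvw (fun h => hm (by
    rw [dvd_neg] at h
    exact_mod_cast h))
  have h8 : (τ : L →+* L) w - w = (c : L) := by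
    have : (τ : L →+* L) w = τ w := rfl
    rw [this, hτ]
    ring
  rw [h8, hvc] at h7
  have h9 : (0 : ℤ) = -(m : ℤ) + s v τ := by
    have : ((0 : ℤ) : WithTop ℤ) = ((-(m : ℤ) + s v (⇑(τ : L →+* L)) : ℤ) : WithTop ℤ) := h7
    exact WithTop.coe_injective this
  omega

/-- the sum of `s` over a group of prime order -/
theorem pow_S1 {G : Type u} [Group G] [Fintype G] (f : G → ℕ) (p m : ℕ)
    (hcard : Nat.card G = p) (hf : ∀ g, g ≠ 1 → f g = m) : S1 f = (p - 1) * m := by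
  classical
  have hc : Fintype.card G = p := by rw [← hcard, Nat.card_eq_fintype_card]
  unfold S1
  rw [Finset.sum_congr rfl (fun g hg => hf g (Finset.mem_filter.1 hg).2), Finset.sum_const,
    smul_eq_mul]
  congr 1
  rw [Finset.filter_ne', Finset.card_erase_of_mem (Finset.mem_univ _), Finset.card_univ, hc]

theorem pow_arith (P q M N1 X Y : ℤ) (hP : 3 ≤ P) (hq : 0 < q) (hM : 1 ≤ M) (hY : 0 ≤ Y)
    (h1 : P * q * M = X + Y) (h2 : (P ^ 2 - P + 1) * M ≤ N1) :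
    0 < q * N1 - X + q * ((P - 1) * M) ∧ (P + 1) * (q * M) < q * N1 - X + q * ((P - 1) * M) ∧
    q * N1 < P * (q * N1 - X + q * ((P - 1) * M)) ∧
    ∀ n : ℤ, q * N1 - X + q * ((P - 1) * M) ≤ n → P * (X + Y) ≤ n + X := by
  obtain ⟨A, hA⟩ : ∃ A, A = q * M := ⟨_, rfl⟩
  obtain ⟨T, hT⟩ : ∃ T, T = q * N1 := ⟨_, rfl⟩
  have hA0 : 0 < A := by rw [hA]; positivity
  have e1 : q * ((P - 1) * M) = (P - 1) * A := by rw [hA]; ring
  have e2 : P * A = X + Y := by rw [← h1, hA]; ring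
  have e3 : (P ^ 2 - P + 1) * A ≤ T := by
    rw [hA, hT]
    calc (P ^ 2 - P + 1) * (q * M) = q * ((P ^ 2 - P + 1) * M) := by ring
      _ ≤ q * N1 := mul_le_mul_of_nonneg_left h2 hq.le
  rw [e1, ← hA, ← hT, ← e2]
  have e4 : X ≤ P * A := by linarith
  have e5 : 3 * A ≤ P * A := mul_le_mul_of_nonneg_right hP hA0.le
  have e6 : 3 * (P * A) ≤ P * (P * A) := mul_le_mul_of_nonneg_right hP (by linarith)
  have e7 : (P ^ 2 - P + 1) * A = P * (P * A) - P * A + A := by ring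
  have e8 : (P - 1) * A = P * A - A := by ring
  rw [e7] at e3
  rw [e8]
  have hQ : 2 * (P * A) ≤ T - X + (P * A - A) := by linarith
  refine ⟨by linarith, by linarith, ?_, ?_⟩
  · have e9 : 3 * (T - X + (P * A - A)) ≤ P * (T - X + (P * A - A)) :=
      mul_le_mul_of_nonneg_right hP (by linarith)
    linarith
  · intro n hn
    linarith

theorem st_POW (hPWA : ST_PWA.{u}) (hPWB : ST_PWB.{u}) (hGEN : ST_GEN.{u}) (hDIFR : ST_DIFR.{u})
    (hDIFT : ST_DIFT.{u}) (hS1 : ST_S1.{u}) : ST_POW.{u} := by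
  intro p hp hp2 k K E _ _ _ _ _ _ _ _ κ v hram D e hdif r φ σ hφ hx0 f g n hpn hvf hfg htr0 htr
  have hKp : CharP K p := charP_of_injective_ringHom κ.injective p
  have hEp : CharP E p := charP_of_injective_algebraMap (algebraMap K E).injective p
  have hpr := hp.out
  have hp3 : 3 ≤ p := by
    have := hpr.two_le
    omega
  have hne : NeZero p := ⟨hpr.ne_zero⟩
  obtain ⟨hcG, hcH⟩ := pow_card_h0 φ
  obtain ⟨w, α, m, hw, hwα, hvw, hm, hml, hmx⟩ := hGEN p k K E κ v hram r φ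
  obtain ⟨X, hX⟩ : ∃ X, X = S1 (fun σ : E ≃ₐ[K] E => s v σ) := ⟨_, rfl⟩
  obtain ⟨Y, hY⟩ : ∃ Y, Y = x0 (fun σ : E ≃ₐ[K] E => s v σ) := ⟨_, rfl⟩
  rw [← hX, ← hY]
  have hm0 : p ^ (r + 1) * m 0 = X + Y := by
    rw [hX, hY]
    apply hmx (σ 0) 0 hx0
    rw [hφ, toAdd_ofAdd, Pi.single_eq_same]
    exact one_ne_zero
  have hmle : ∀ j, m j ≤ m 0 := by
    intro j
    have := hml j
    rw [← hX, ← hY, ← hm0] at this
    exact Nat.le_of_mul_le_mul_left this (pow_pos hpr.pos _)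
  obtain ⟨a, h, f1, g1, -, hf, hfix, hfg1, htr1⟩ := hPWA p E r (fun i => (σ i).toRingEquiv) w g f
    (fun i j x => by
      have := congrArg (fun τ : E ≃ₐ[K] E => τ x) (pow_comm φ (σ i) (σ j))
      exact this)
    (fun i x => by
      have h1 := pow_iter (σ i) p x
      rw [pow_exp φ] at h1
      exact h1)
    (fun i j => by
      have h1 := hw (σ i) j
      rw [hφ, toAdd_ofAdd] at h1
      have h2 : ((σ i).toRingEquiv) (w j) = σ i (w j) := rfl
      rw [h2, h1]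
      congr 1
      by_cases hij : i = j
      · subst hij
        rw [Pi.single_eq_same, if_pos rfl, ZMod.val_one, Nat.cast_one]
      · rw [Pi.single_eq_of_ne (Ne.symm hij), if_neg hij, ZMod.val_zero, Nat.cast_zero])
    hfg htr0
  have hnorm : (pow_h0 φ).Normal := ⟨fun n hn g => by
    have h1 : g * n * g⁻¹ = n := by rw [pow_comm φ g n, mul_assoc, mul_inv_cancel, mul_one]
    rw [h1]
    exact hn⟩
  obtain ⟨E0, hE0⟩ : ∃ E0 : IntermediateField K E, E0 = IntermediateField.fixedField (pow_h0 φ) :=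
    ⟨_, rfl⟩
  have hNE0 : Normal K E0 := by
    rw [hE0]
    infer_instance
  have hGE0 : IsGalois K E0 := isGalois_iff.2 ⟨inferInstance, hNE0⟩
  obtain ⟨v0, hv0a, hv0b⟩ := hram.sub E0
  have hram0 : Ram κ v0 := grf_quot κ v hram E0 v0 hv0a hv0b
  have hEE0 : Module.finrank E0 E = p ^ r := by
    rw [hE0, IntermediateField.finrank_fixedField_eq_card, hcH]
  have hKE : Module.finrank K E = p ^ (r + 1) := by
    rw [← IsGalois.card_aut_eq_finrank, hcG]
  have hKE0 : Module.finrank K E0 = p := by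
    have := Module.finrank_mul_finrank K E0 E
    rw [hEE0, hKE, pow_succ'] at this
    exact Nat.eq_of_mul_eq_mul_right (pow_pos hpr.pos r) this
  have hcE0 : Nat.card (E0 ≃ₐ[K] E0) = p := by rw [IsGalois.card_aut_eq_finrank, hKE0]
  have hmem : ∀ x : E, (∀ i, i ≠ 0 → σ i x = x) → x ∈ E0 := by
    intro x hx
    rw [hE0, IntermediateField.mem_fixedField_iff]
    intro τ hτ
    exact pow_gen φ σ hφ (MulAction.stabilizer (E ≃ₐ[K] E) x) (fun i hi => hx i hi) τ hτ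
  have hw0m : w 0 ∈ E0 := by
    rw [hE0, IntermediateField.mem_fixedField_iff]
    intro τ hτ
    rw [hw, (pow_mem_h0 φ τ).1 hτ, ZMod.val_zero, Nat.cast_zero, add_zero]
  have hf1m : f1 ∈ E0 := hmem f1 fun i hi => (hfix i hi).1
  have hg1m : g1 ∈ E0 := hmem g1 fun i hi => (hfix i hi).2
  have hq0 : 0 < p ^ r := pow_pos hpr.pos r
  have hvw0 : v0 ⟨w 0, hw0m⟩ = ((-(m 0 : ℤ) : ℤ) : WithTop ℤ) := by
    apply asc_cancel (p ^ r) hq0
    have h2 := hv0b ⟨w 0, hw0m⟩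
    rw [hEE0] at h2
    rw [← h2, asc_nsmul_coe]
    have h3 : v ((⟨w 0, hw0m⟩ : E0) : E) = v (w 0) := rfl
    rw [h3, hvw]
    congr 1
    push_cast
    ring
  have hs0 : ∀ τ : E0 ≃ₐ[K] E0, τ ≠ 1 → s v0 τ = m 0 := by
    intro τ hτ
    obtain ⟨τ', hτ'⟩ := AlgEquiv.restrictNormalHom_surjective (F := K) (K₁ := E0) E τ
    have hcm : ∀ x : E0, ((τ x : E0) : E) = τ' x := by
      intro x
      rw [← hτ']
      exact τ'.restrictNormal_commutes E0 x
    refine pow_s0 hS1 p k K E0 κ v0 hram0 hKE0 τ ⟨w 0, hw0m⟩ (m 0) (hm 0).2 hvw0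
      (((φ τ').toAdd 0).val) ?_ ?_
    · intro hd
      apply hτ
      have h2 : ((φ τ').toAdd 0).val = 0 := Nat.eq_zero_of_dvd_of_lt hd (ZMod.val_lt _)
      have h3 : τ' ∈ pow_h0 φ := (pow_mem_h0 φ τ').2 ((ZMod.val_eq_zero _).1 h2)
      ext x
      have h4 : (x : E) ∈ IntermediateField.fixedField (pow_h0 φ) := by
        rw [← hE0]
        exact x.2
      rw [IntermediateField.mem_fixedField_iff] at h4
      rw [hcm, h4 τ' h3]
      rfl
    · apply Subtype.ext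
      rw [hcm]
      have h2 := hw τ' 0
      rw [h2]
      rfl
  obtain ⟨τ0, hτ0⟩ : ∃ τ0 : E0 ≃ₐ[K] E0, ∀ x : E0, ((τ0 x : E0) : E) = σ 0 x :=
    ⟨(σ 0).restrictNormal E0, fun x => (σ 0).restrictNormal_commutes E0 x⟩
  have hτ0ne : τ0 ≠ 1 := by
    intro h1
    have h2 := hτ0 ⟨w 0, hw0m⟩
    rw [h1] at h2
    have h3 : w 0 = σ 0 (w 0) := h2
    rw [hw, hφ, toAdd_ofAdd, Pi.single_eq_same, ZMod.val_one, Nat.cast_one] at h3
    exact one_ne_zero (left_eq_add.1 h3)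
  have hit : ∀ (l : ℕ) (x : E0), (((⇑τ0)^[l] x : E0) : E) = (⇑(σ 0))^[l] (x : E) := by
    intro l x
    induction l with
    | zero => rfl
    | succ l ih => rw [Function.iterate_succ_apply', Function.iterate_succ_apply', hτ0, ih]
  have hsum : ∀ x : E0, ((∑ l ∈ Finset.range p, (⇑τ0)^[l] x : E0) : E) =
      ∑ l ∈ Finset.range p, (⇑(σ 0))^[l] (x : E) := by
    intro x
    have h2 := map_sum (algebraMap E0 E) (fun l => (⇑τ0)^[l] x) (Finset.range p)
    exact h2.trans (Finset.sum_congr rfl fun l _ => hit l x)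
  obtain ⟨h1, n1, hn1p, hn1v, hn1⟩ := hPWB p k K E0 κ v0 hram0 hKE0 τ0 ⟨f1, hf1m⟩ ⟨g1, hg1m⟩
    hτ0ne (by
      apply Subtype.ext
      have h2 : ((τ0 ⟨f1, hf1m⟩ - ⟨f1, hf1m⟩ : E0) : E) = ((τ0 ⟨f1, hf1m⟩ : E0) : E) - f1 := rfl
      rw [h2, hτ0]
      exact hfg1) (by
      intro h2
      apply htr
      have h3 := congrArg (fun x : E0 => (x : E)) h2
      simp only [hsum] at h3
      exact htr1.symm.trans h3)
  rw [hs0 τ0 hτ0ne] at hn1
  have hpgE : IsPGroup p (E ≃ₐ[K] E) := IsPGroup.of_card hcG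
  have hpg0 : IsPGroup p (E0 ≃ₐ[K] E0) := IsPGroup.of_card (n := 1) (by rw [hcE0, pow_one])
  have hDV := hDIFT p k K E κ v hram hpgE D e hdif
  obtain ⟨D', hD', hdif'⟩ := hDIFR p K E v D e hdif E0 v0 hv0b
  have hDV0 := hDIFT p k K E0 κ v0 hram0 hpg0 D' e hdif'
  rw [pow_S1 (fun σ : E0 ≃ₐ[K] E0 => s v0 σ) p (m 0) hcE0 hs0, hKE0] at hDV0
  rw [← hX, hKE] at hDV
  obtain ⟨F0, hF0⟩ : ∃ F0 : E0, F0 = ⟨f1, hf1m⟩ - (h1 ^ p - h1) := ⟨_, rfl⟩
  rw [← hF0] at hn1v
  have hDF0 := hDV0.eq F0 (-(n1 : ℤ)) hn1v (fun h2 => hn1p (by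
    rw [dvd_neg] at h2
    exact_mod_cast h2))
  have hF0c : (F0 : E) = f1 - ((h1 : E) ^ p - (h1 : E)) := by rw [hF0]; rfl
  have hvF0 : v (F0 : E) = ((-((p ^ r * n1 : ℕ) : ℤ) : ℤ) : WithTop ℤ) := by
    rw [hv0b, hEE0, hn1v, asc_nsmul_coe]
    congr 1
    push_cast
    ring
  have hvDF0 : v (D (F0 : E)) = (((p ^ r : ℕ) : ℤ) *
      (-(n1 : ℤ) - (((p : ℤ) * e + (((p - 1) * m 0 : ℕ) : ℤ)))) : ℤ) := by
    rw [← hD', hv0b, hEE0, hDF0, asc_nsmul_coe]
  have hfin := pow_core v p D _ hDV.le f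
    (∑ i, ∑ j, (a i j : E) * (w i ^ p - w i) * w j) (F0 : E) (h + (h1 : E)) (by
      rw [hF0c, add_pow_char, hf]
      ring) n (((p : ℤ) + 1) * (((p ^ r : ℕ) : ℤ) * (m 0 : ℤ))) ((p ^ r * n1 : ℕ) : ℤ)
      (((p ^ r * n1 : ℕ) : ℤ) - X + ((p ^ r : ℕ) : ℤ) * (((p : ℤ) - 1) * (m 0 : ℤ)))
  have har := pow_arith (p : ℤ) ((p ^ r : ℕ) : ℤ) (m 0 : ℤ) (n1 : ℤ) (X : ℤ) (Y : ℤ)
    (by exact_mod_cast hp3) (by exact_mod_cast hq0) (by exact_mod_cast (hm 0).1)
    (Int.natCast_nonneg _) (by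
      have h2 : ((p ^ (r + 1) * m 0 : ℕ) : ℤ) = ((X + Y : ℕ) : ℤ) := by rw [hm0]
      rw [pow_succ'] at h2
      push_cast at h2 ⊢
      exact h2) (by
      have hpp : p ≤ p ^ 2 := Nat.le_self_pow (by norm_num) p
      have h2 : (((p ^ 2 - p + 1) * m 0 : ℕ) : ℤ) ≤ (n1 : ℤ) := by exact_mod_cast hn1
      rw [Nat.cast_mul, Nat.cast_add, Nat.cast_sub hpp] at h2
      push_cast at h2
      exact h2)
  obtain ⟨b1, b2, b3, b4⟩ := har
  have hfin2 := hfin (by push_cast at b1 ⊢; exact b1) (by push_cast at b2 ⊢; exact b2)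
    (by push_cast at b3 ⊢; exact b3) hvf
    (by
      have h2 := pow_fs v p (p ^ r) hpr.one_lt.le w m hvw hmle a
      push_cast at h2 ⊢
      exact h2)
    hvF0 (by
      rw [hvDF0]
      congr 1
      have hp1 : 1 ≤ p := hpr.one_lt.le
      have h2 : (((p - 1) * m 0 : ℕ) : ℤ) = ((p : ℤ) - 1) * (m 0 : ℤ) := by
        rw [Nat.cast_mul, Nat.cast_sub hp1, Nat.cast_one]
      rw [h2]
      push_cast
      ring)
  have h5 := b4 n (by push_cast at hfin2 ⊢; exact hfin2)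
  exact_mod_cast h5

end Pool.Agent.Helper20.NP
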