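import Pool.Agent.Helper22.NP.Basic

namespace Pool.Agent.Helper22.NP

open scoped Classical

/-- invariant characters of the induced module -/
theorem wr1_inv (p : ℕ) [Fact p.Prime] (P W : Type) [Group P] [Fintype W] [MulAction P W]
    [MulAction.IsPretransitive P W] (α : Multiplicative (W → ZMod p) →* P)
    (hα : ∀ (g : P) (n : W → ZMod p), g * α (Multiplicative.ofAdd n) * g⁻¹ =
      α (Multiplicative.ofAdd fun x => n (g⁻¹ • x)))
    (χ : P →* Multiplicative (ZMod p)) (x₀ : W) :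
    ∃ l : ZMod p, ∀ n : W → ZMod p,
      Multiplicative.toAdd (χ (α (Multiplicative.ofAdd n))) = l * ∑ w, n w := by
  let φ0 : (W → ZMod p) →+ ZMod p := AddMonoidHom.mk'
    (fun n => Multiplicative.toAdd (χ (α (Multiplicative.ofAdd n)))) (by
      intro a b
      rw [ofAdd_add, map_mul, map_mul, toAdd_mul])
  let φ : (W → ZMod p) →ₗ[ZMod p] ZMod p := AddMonoidHom.toZModLinearMap p φ0
  have hφ : ∀ n, φ n = Multiplicative.toAdd (χ (α (Multiplicative.ofAdd n))) := fun n => rfl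
  have hinv : ∀ (g : P) (n : W → ZMod p), φ (fun x => n (g⁻¹ • x)) = φ n := by
    intro g n
    have h1 : χ (g * α (Multiplicative.ofAdd n) * g⁻¹) = χ (α (Multiplicative.ofAdd n)) := by
      rw [map_mul, map_mul, map_inv, mul_comm (χ g), mul_inv_cancel_right]
    rw [hφ, hφ, ← hα, h1]
  refine ⟨φ (fun j => if x₀ = j then 1 else 0), fun n => ?_⟩
  rw [← hφ, LinearMap.pi_apply_eq_sum_univ φ n, Finset.mul_sum]
  refine Finset.sum_congr rfl fun w _ => ?_
  obtain ⟨g, hg⟩ := MulAction.exists_smul_eq P x₀ w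
  have h1 : φ (fun j => if w = j then 1 else 0) = φ (fun j => if x₀ = j then 1 else 0) := by
    rw [← hinv g (fun j => if x₀ = j then 1 else 0)]
    congr 1
    funext j
    have h2 : (w = j) ↔ (x₀ = g⁻¹ • j) := by
      rw [← hg, eq_inv_smul_iff]
    by_cases h3 : w = j
    · rw [if_pos h3, if_pos (h2.1 h3)]
    · rw [if_neg h3, if_neg (fun h => h3 (h2.2 h))]
  rw [h1, smul_eq_mul, mul_comm]

/-- elements with `u ^ p = u` -/
theorem wr1_fp (p : ℕ) [Fact p.Prime] (Ω : Type) [Field Ω] [CharP Ω p] (u : Ω) (hu : u ^ p = u) :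
    ∃ a : Multiplicative (ZMod p), zc p Ω a = u := by
  have h1 : u ∈ (⊥ : Subfield Ω) := (Subfield.mem_bot_iff_pow_eq_self Ω p).2 hu
  rw [← ZMod.fieldRange_castHom_eq_bot p] at h1
  obtain ⟨a, ha⟩ := h1
  refine ⟨Multiplicative.ofAdd a, ?_⟩
  unfold zc
  rw [toAdd_ofAdd, ZMod.natCast_val, ← ha, ZMod.castHom_apply]

theorem wr1_zc (p : ℕ) [Fact p.Prime] (Ω : Type) [Field Ω] [CharP Ω p]
    (a : Multiplicative (ZMod p)) :
    zc p Ω a = ZMod.castHom (dvd_refl p) Ω (Multiplicative.toAdd a) := by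
  unfold zc
  rw [ZMod.natCast_val, ZMod.castHom_apply]

/-- the construction for a given constant -/
theorem wr1_con (h1 : ST_LVL) (p : ℕ) [Fact p.Prime] (k P W Ω : Type) [Field k] [CharP k p]
    [Group P] [Fintype W] [MulAction P W] [MulAction.IsPretransitive P W] [Field Ω]
    [Algebra (LaurentSeries k) Ω] (hP : PCl p (LaurentSeries k) Ω)
    (α : Multiplicative (W → ZMod p) →* P)
    (hα : ∀ (g : P) (n : W → ZMod p), g * α (Multiplicative.ofAdd n) * g⁻¹ =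
      α (Multiplicative.ofAdd fun x => n (g⁻¹ • x)))
    (ρ : (Ω ≃ₐ[LaurentSeries k] Ω) →* P) (hFL : FL ρ)
    (X1 : W → Ω) (hX1 : ∀ σ w, σ (X1 w) = X1 (ρ σ • w)) (κ : k) :
    ∃ (Y : W → Ω) (e : (Ω ≃ₐ[LaurentSeries k] Ω) → W → Multiplicative (ZMod p))
      (ρ' : (Ω ≃ₐ[LaurentSeries k] Ω) →* P),
      (∀ w, Y w ^ p - Y w = tz k Ω 0 κ * X1 w) ∧
      (∀ σ w, σ (Y w) = Y (ρ σ • w) + zc p Ω (e σ (ρ σ • w))) ∧
      (∀ σ, ρ' σ = α (Multiplicative.ofAdd fun w => Multiplicative.toAdd (e σ w)) * ρ σ) ∧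
      FL ρ' := by
  have hchar : CharP Ω p := charP_of_ring (iotaL k Ω)
  have htz : ∀ σ : Ω ≃ₐ[LaurentSeries k] Ω, σ (tz k Ω 0 κ) = tz k Ω 0 κ := fun σ => σ.commutes _
  choose Y hY using fun w => hP.as (tz k Ω 0 κ * X1 w)
  have hu : ∀ (σ : Ω ≃ₐ[LaurentSeries k] Ω) (w : W),
      (σ (Y ((ρ σ)⁻¹ • w)) - Y w) ^ p = σ (Y ((ρ σ)⁻¹ • w)) - Y w := by
    intro σ w
    have a1 := congrArg σ (hY ((ρ σ)⁻¹ • w))
    rw [map_sub, map_pow, map_mul, htz, hX1, smul_inv_smul] at a1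
    have a2 := hY w
    rw [sub_pow_char]
    linear_combination a1 - a2
  choose e he using fun σ w => wr1_fp p Ω _ (hu σ w)
  have he' : ∀ σ w, σ (Y w) = Y (ρ σ • w) + zc p Ω (e σ (ρ σ • w)) := by
    intro σ w
    rw [he, inv_smul_smul]
    ring
  have hfix : ∀ (σ : Ω ≃ₐ[LaurentSeries k] Ω) (a : Multiplicative (ZMod p)),
      σ (zc p Ω a) = zc p Ω a := by
    intro σ a
    unfold zc
    rw [map_natCast]
  have hinj : ∀ a b : Multiplicative (ZMod p), zc p Ω a = zc p Ω b → a = b := by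
    intro a b h
    rw [wr1_zc, wr1_zc] at h
    exact Multiplicative.toAdd.injective ((ZMod.castHom (dvd_refl p) Ω).injective h)
  have hmulz : ∀ a b : Multiplicative (ZMod p), zc p Ω (a * b) = zc p Ω a + zc p Ω b := by
    intro a b
    rw [wr1_zc, wr1_zc, wr1_zc, toAdd_mul, map_add]
  have hcoc : ∀ σ τ w, e (σ * τ) w = e σ w * e τ ((ρ σ)⁻¹ • w) := by
    intro σ τ w
    apply hinj
    rw [hmulz, he, he, map_mul]
    have a1 : zc p Ω (e τ ((ρ σ)⁻¹ • w)) =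
        σ (τ (Y ((ρ τ)⁻¹ • (ρ σ)⁻¹ • w))) - σ (Y ((ρ σ)⁻¹ • w)) := by
      rw [← hfix σ, he, map_sub]
    rw [a1, mul_inv_rev, mul_smul]
    have a2 : (σ * τ) (Y ((ρ τ)⁻¹ • (ρ σ)⁻¹ • w)) = σ (τ (Y ((ρ τ)⁻¹ • (ρ σ)⁻¹ • w))) := rfl
    rw [a2]
    ring
  have hmul : ∀ σ τ : Ω ≃ₐ[LaurentSeries k] Ω,
      α (Multiplicative.ofAdd fun w => Multiplicative.toAdd (e (σ * τ) w)) * ρ (σ * τ) =
      (α (Multiplicative.ofAdd fun w => Multiplicative.toAdd (e σ w)) * ρ σ) *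
      (α (Multiplicative.ofAdd fun w => Multiplicative.toAdd (e τ w)) * ρ τ) := by
    intro σ τ
    have a1 : (fun w => Multiplicative.toAdd (e (σ * τ) w)) =
        (fun w => Multiplicative.toAdd (e σ w)) +
          fun w => Multiplicative.toAdd (e τ ((ρ σ)⁻¹ • w)) := by
      funext w
      rw [hcoc, Pi.add_apply, toAdd_mul]
    have a2 := hα (ρ σ) (fun w => Multiplicative.toAdd (e τ w))
    rw [a1, ofAdd_add, map_mul, ← a2, map_mul]
    group
  refine ⟨Y, e, MonoidHom.mk' _ hmul, hY, he', fun σ => rfl, ?_⟩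
  obtain ⟨M, hM1, hM2, hM3⟩ := hFL
  obtain ⟨M', a1, a2, a3, -, a4, -⟩ := h1 p (LaurentSeries k) Ω hP M M hM1 hM2 hM1 hM2
    (Finset.univ.image Y)
  refine ⟨M', a1, a2, ?_⟩
  intro σ hσ
  have b1 : ρ σ = 1 := hM3 (by
    rw [IntermediateField.mem_fixingSubgroup_iff] at hσ ⊢
    exact fun x hx => hσ x (a3 hx))
  have b2 : ∀ w, σ (Y w) = Y w := by
    intro w
    rw [IntermediateField.mem_fixingSubgroup_iff] at hσ
    exact hσ _ (a4 _ (Finset.mem_image_of_mem _ (Finset.mem_univ w)))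
  have b3 : ∀ w, e σ w = 1 := by
    intro w
    apply hinj
    rw [he, b1, inv_one, one_smul, b2, sub_self]
    simp [zc]
  rw [MonoidHom.mem_ker, MonoidHom.mk'_apply]
  have b4 : (fun w => Multiplicative.toAdd (e σ w)) = 0 := by
    funext w
    rw [b3]
    rfl
  rw [b4, b1, ofAdd_zero, map_one]
  exact mul_one 1

theorem st_WR1 (h1 : ST_LVL) (h2 : ST_FRS) : ST_WR1 := by
  intro p hp k P W Ω _ _ _ _ _ _ _ _ _ _ hPCl hPG α hα ρ hFL hsur x₀ x₁ hx₁
  have hchar : CharP Ω p := charP_of_ring (iotaL k Ω)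
  have hg : ∀ w : W, ∃ σ : Ω ≃ₐ[LaurentSeries k] Ω, ρ σ • x₀ = w := by
    intro w
    obtain ⟨g, hg⟩ := MulAction.exists_smul_eq P x₀ w
    obtain ⟨σ, hσ⟩ := hsur g
    exact ⟨σ, by rw [hσ, hg]⟩
  choose γ hγ using hg
  set X1 : W → Ω := fun w => γ w x₁ with hX1d
  have hwd : ∀ (σ : Ω ≃ₐ[LaurentSeries k] Ω) (w : W), ρ σ • x₀ = w → σ x₁ = X1 w := by
    intro σ w hσ
    have a1 : ρ ((γ w)⁻¹ * σ) • x₀ = x₀ := by
      rw [map_mul, map_inv, mul_smul, hσ, inv_smul_eq_iff, hγ]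
    have a2 := hx₁ _ a1
    have a3 : γ w (((γ w)⁻¹ * σ) x₁) = σ x₁ := by
      rw [← AlgEquiv.mul_apply, mul_inv_cancel_left]
    rw [a2] at a3
    exact a3.symm
  have hX1 : ∀ (σ : Ω ≃ₐ[LaurentSeries k] Ω) w, σ (X1 w) = X1 (ρ σ • w) := by
    intro σ w
    have a1 : (σ * γ w) x₁ = X1 (ρ σ • w) := hwd _ _ (by rw [map_mul, mul_smul, hγ])
    exact a1
  have hX10 : X1 x₀ = x₁ := (hwd 1 x₀ (by rw [map_one, one_smul])).symm
  set w₁ : Ω := ∑ w, X1 w with hw₁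
  have hfix : ∀ (σ : Ω ≃ₐ[LaurentSeries k] Ω) (a : Multiplicative (ZMod p)),
      σ (zc p Ω a) = zc p Ω a := by
    intro σ a
    unfold zc
    rw [map_natCast]
  by_contra hcon
  have key : ∀ κ : {κ : k // κ ≠ 0}, ∃ (f : (P →* Multiplicative (ZMod p)) × ZMod p) (T : Ω),
      f.1 ≠ 1 ∧ f.2 ≠ 0 ∧ T ^ p - T = tz k Ω 0 κ * w₁ ∧
      ∀ σ : Ω ≃ₐ[LaurentSeries k] Ω, σ T = T +
        zc p Ω (Multiplicative.ofAdd (f.2 * Multiplicative.toAdd (f.1 (ρ σ)))) := by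
    rintro ⟨κ, hκ⟩
    obtain ⟨Y, e, ρ', c1, c2, c3, c4⟩ := wr1_con h1 p k P W Ω hPCl α hα ρ hFL X1 hX1 κ
    have hns : ¬ Function.Surjective ρ' := by
      intro hs
      apply hcon
      refine ⟨κ, fun w => tz k Ω 0 κ * X1 w, Y, e, ρ', hκ, ?_, ?_, c1, c2, c3, c4, hs⟩
      · simp only [hX10]
      · intro σ w
        simp only [map_mul, hX1]
        congr 1
        exact σ.commutes _
    have hex : ∃ χ : P →* Multiplicative (ZMod p), (∀ σ, χ (ρ' σ) = 1) ∧ χ ≠ 1 := by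
      by_contra hno
      apply hns
      have htop : ρ'.range = ⊤ := by
        apply h2 p P hPG
        intro χ hχ
        by_contra hne
        exact hno ⟨χ, fun σ => hχ _ ⟨σ, rfl⟩, hne⟩
      exact MonoidHom.range_eq_top.1 htop
    obtain ⟨χ, d1, d2⟩ := hex
    obtain ⟨l, hl⟩ := wr1_inv p P W α hα χ x₀
    have d3 : ∀ σ, l * ∑ w, Multiplicative.toAdd (e σ w) + Multiplicative.toAdd (χ (ρ σ)) = 0 := by
      intro σ
      rw [← hl, ← toAdd_mul, ← map_mul, ← c3, d1, toAdd_one]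
    have hl0 : l ≠ 0 := by
      intro h0
      apply d2
      ext g
      obtain ⟨σ, rfl⟩ := hsur g
      have := d3 σ
      rw [h0, zero_mul, zero_add] at this
      rw [this]
      rfl
    refine ⟨(χ, -l⁻¹), ∑ w, Y w, d2, ?_, ?_, ?_⟩
    · simpa using hl0
    · simp only
      rw [sum_pow_char, ← Finset.sum_sub_distrib, hw₁, Finset.mul_sum]
      exact Finset.sum_congr rfl fun w _ => c1 w
    · intro σ
      simp only
      rw [map_sum, Finset.sum_congr rfl fun w _ => c2 σ w, Finset.sum_add_distrib]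
      congr 1
      · exact Fintype.sum_equiv (MulAction.toPerm (ρ σ)) _ _ fun w => rfl
      · have a1 : ∑ w, zc p Ω (e σ (ρ σ • w)) = ∑ w, zc p Ω (e σ w) :=
          Fintype.sum_equiv (MulAction.toPerm (ρ σ)) _ _ fun w => rfl
        have a2 : -l⁻¹ * Multiplicative.toAdd (χ (ρ σ)) = ∑ w, Multiplicative.toAdd (e σ w) := by
          have a3 : Multiplicative.toAdd (χ (ρ σ)) = -(l * ∑ w, Multiplicative.toAdd (e σ w)) := by
            linear_combination d3 σ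
          rw [a3]
          field_simp
        rw [a1, a2, wr1_zc, toAdd_ofAdd, map_sum]
        exact Finset.sum_congr rfl fun w _ => wr1_zc p Ω _
  choose f T g1 g2 g3 g4 using key
  have hinf : Infinite {κ : k // κ ≠ 0} := by
    have : Infinite k := IsAlgClosed.instInfinite
    exact (Set.finite_singleton (0 : k)).infinite_compl.to_subtype
  have hfinP : Finite (P →* Multiplicative (ZMod p)) :=
    Finite.of_injective (fun χ : P →* Multiplicative (ZMod p) => (χ : P → Multiplicative (ZMod p)))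
      DFunLike.coe_injective
  obtain ⟨κ, κ', hne, hff⟩ := Finite.exists_ne_map_eq_of_infinite f
  have hsub : (κ : k) - κ' ≠ 0 := fun h => hne (Subtype.ext (sub_eq_zero.1 h))
  set κ₃ : {κ : k // κ ≠ 0} := ⟨(κ : k) - κ', hsub⟩ with hκ₃
  have htz : tz k Ω 0 (κ₃ : k) = tz k Ω 0 κ - tz k Ω 0 κ' := by
    have e1 : ∀ c : k, tz k Ω 0 c = iotaL k Ω c := fun c => rfl
    rw [e1, e1, e1, ← map_sub]
  have hD : (T κ₃ - (T κ - T κ')) ^ p = T κ₃ - (T κ - T κ') := by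
    rw [sub_pow_char, sub_pow_char]
    have b1 := g3 κ
    have b2 := g3 κ'
    have b3 := g3 κ₃
    rw [htz] at b3
    linear_combination b3 - b1 + b2
  obtain ⟨a, ha⟩ := wr1_fp p Ω _ hD
  apply g1 κ₃
  ext g
  obtain ⟨σ, rfl⟩ := hsur g
  have b1 := g4 κ σ
  have b2 := g4 κ' σ
  have b3 := g4 κ₃ σ
  rw [← hff] at b2
  have b4 : σ (T κ₃) = T κ₃ := by
    have b5 : T κ₃ = zc p Ω a + (T κ - T κ') := by rw [ha]; ring
    rw [b5, map_add, map_sub, hfix, b1, b2]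
    ring
  rw [b4] at b3
  have b6 : zc p Ω (Multiplicative.ofAdd ((f κ₃).2 * Multiplicative.toAdd ((f κ₃).1 (ρ σ)))) = 0 := by
    linear_combination -b3
  rw [wr1_zc, toAdd_ofAdd, map_eq_zero, mul_eq_zero] at b6
  rcases b6 with b6 | b6
  · exact absurd b6 (g2 κ₃)
  · rw [b6]
    rfl

end Pool.Agent.Helper22.NP
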